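import Pool.Agent.H193.Bom.A6
import Pool.Agent.H193.Bom.A7

set_option autoImplicit false

/-!
# Q1: sharp asymptotics `c_n^* = (1/4) n^3 log n + O(n^3 sqrt (log n))` of the Bombieri constants

For `n ≥ 2` the constant `c_n^*` is the smallest `c` with `|Re (n - a_n)| ≤ c Re (2 - a_2)` for
every `f` in the class `S`. We show

`|c_n^* - (1/4) n^3 log n| ≤ 5 * 10^15 n^3 sqrt (log n)` for every `n ≥ 2`,

so that `c_n^* / (n^3 log n) → 1/4`, and that the constants get no smaller asymptotically if only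
functions `f ≠ k` with `Re (2 - a_2) < δ`, that is functions close to the Koebe function, are
admitted, for whatever `δ > 0`.

Definitions: `S` is the class of analytic injective functions of the unit disc with `f 0 = 0`,
`f' 0 = 1`; `a f n` is the `n`-th Taylor coefficient; `Admissible n` is the set of the admissible
constants and `cStar n` its infimum, which is shown to be its least element, so it is `c_n^*` of the
problem file; `Near n δ` is the set of the constants admissible for the functions with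
`Re (2 - a_2) < δ`, and `cNear n δ` is its infimum (also a least element).

The library theorem `MP_7d58db_an.BombieriConstants` has `n^3 log n / 10^4 ≤ c_n^*` and
`c_n^* ≤ 10^5 n^3 (1 + log n)`. The lower bound here uses its family of slit-like perturbations of
the Koebe function (modules `H33R3.Bom.*`) with the optimal choice of the parameters. The upper
bound is new: after an improvement of the estimate for the real part of the odd transform (from
`log` to `sqrt log`), `f` is compared with `z / (1 + i L - z)^2`, where `L` is real and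
`L^2 ≤ (1/2) log (4 n) Re (2 - a_2)` by the area theorem for the odd transform; the range
`n^2 log n Re (2 - a_2) ≥ 400` is covered by a bound of Littlewood's type, `|a_n| ≤ 8 n`.
-/

namespace Pool.Agent.Results.MP_7d58db_an.SharpAsymptotics

open Metric Set Filter Topology

/-- The class `S`: analytic and injective functions on the unit disc, `f 0 = 0`, `f' 0 = 1`. -/
def S : Set (ℂ → ℂ) :=
  {f | DifferentiableOn ℂ f (ball 0 1) ∧ InjOn f (ball 0 1) ∧ f 0 = 0 ∧ deriv f 0 = 1}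

/-- The `n`-th Taylor coefficient of `f` at the origin. -/
noncomputable def a (f : ℂ → ℂ) (n : ℕ) : ℂ := iteratedDeriv n f 0 / (n.factorial : ℂ)

/-- The constants `c` with `|Re (n - a_n)| ≤ c Re (2 - a_2)` on `S`. -/
def Admissible (n : ℕ) : Set ℝ :=
  {c : ℝ | ∀ f ∈ S, |((n : ℂ) - a f n).re| ≤ c * ((2 : ℂ) - a f 2).re}

/-- The Bombieri constant `c_n^*`. -/
noncomputable def cStar (n : ℕ) : ℝ := sInf (Admissible n)

/-- The constants `c` with `|Re (n - a_n)| ≤ c Re (2 - a_2)` for the functions of `S` with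
`Re (2 - a_2) < δ`, that is for the functions close to the Koebe function. -/
def Near (n : ℕ) (δ : ℝ) : Set ℝ :=
  {c : ℝ | ∀ f ∈ S, ((2 : ℂ) - a f 2).re < δ →
    |((n : ℂ) - a f n).re| ≤ c * ((2 : ℂ) - a f 2).re}

/-- The local Bombieri constant. -/
noncomputable def cNear (n : ℕ) (δ : ℝ) : ℝ := sInf (Near n δ)

theorem mem_S {f : ℂ → ℂ} (hf : Pool.Agent.H33R3.Bom.InS f) : f ∈ S :=
  ⟨hf.diff, hf.inj, hf.zero, hf.one⟩

theorem of_S {f : ℂ → ℂ} (hf : f ∈ S) : Pool.Agent.H33R3.Bom.InS f :=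
  ⟨hf.1, hf.2.1, hf.2.2.1, hf.2.2.2⟩

/-- there are functions close to the Koebe function -/
theorem exists_close {δ : ℝ} (hδ : 0 < δ) :
    ∃ f ∈ S, 0 < ((2 : ℂ) - a f 2).re ∧ ((2 : ℂ) - a f 2).re < δ := by
  by_contra hcon
  push Not at hcon
  have h1 := Pool.Agent.H193.Bom.family (n := 3) (J := 0) (by norm_num) (by norm_num) (c := -1) hδ
    (fun f hf h0 h1 => absurd h1 (not_lt.2 (hcon f (mem_S hf) h0)))
  have h2 : 0 < Pool.Agent.H33R3.Bom.ms (1 - 1 / ((3 : ℕ) : ℝ)) 0 := by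
    unfold Pool.Agent.H33R3.Bom.ms
    have h3 : 0 ≤ Real.log ((1 + (1 - 1 / ((3 : ℕ) : ℝ))) / (1 - (1 - 1 / ((3 : ℕ) : ℝ)))) := by
      apply Real.log_nonneg
      norm_num
    have h4 : (0 : ℝ) ≤ (1 - 1 / ((3 : ℕ) : ℝ)) ^ (2 * 0 + 1) := by norm_num
    have h5 := mul_nonneg h3 h4
    rw [if_pos rfl]
    linarith
  have h3 : 0 ≤ 3 * (∑ i ∈ Finset.range (0 + 1), Pool.Agent.H33R3.Bom.qs (1 - 1 / ((3 : ℕ) : ℝ)) i) ^ 2 *
      ((3 - 2 * 0).choose 3 : ℝ) := by positivity
  linarith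

theorem near_nonneg {n : ℕ} {δ c : ℝ} (hδ : 0 < δ) (hc : c ∈ Near n δ) : 0 ≤ c := by
  obtain ⟨f, hf, h0, h1⟩ := exists_close hδ
  have h2 := (abs_nonneg _).trans (hc f hf h1)
  by_contra hcon
  push Not at hcon
  nlinarith

theorem near_lower {n : ℕ} (hn : 2 ≤ n) {δ c : ℝ} (hδ : 0 < δ) (hc : c ∈ Near n δ) :
    1 / 4 * (n : ℝ) ^ 3 * Real.log n - 3 * (n : ℝ) ^ 3 * √(Real.log n) ≤ c :=
  Pool.Agent.H193.Bom.lower hn hδ (fun f hf _ h1 => hc f (mem_S hf) h1) (near_nonneg hδ hc)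

theorem adm_near {n : ℕ} {δ c : ℝ} (hc : c ∈ Admissible n) : c ∈ Near n δ :=
  fun f hf _ => hc f hf

theorem upper {n : ℕ} (hn : 2 ≤ n) :
    1 / 4 * (n : ℝ) ^ 3 * Real.log n + 5 * 10 ^ 15 * (n : ℝ) ^ 3 * √(Real.log n) ∈ Admissible n :=
  fun f hf => Pool.Agent.H193.Bom.upper n hn f (of_S hf)

theorem near_least {n : ℕ} (hn : 2 ≤ n) {δ : ℝ} (hδ : 0 < δ) : IsLeast (Near n δ) (cNear n δ) := by
  have hbdd : BddBelow (Near n δ) := ⟨0, fun c hc => near_nonneg hδ hc⟩
  have hclosed : IsClosed (Near n δ) := by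
    have : Near n δ = ⋂ f ∈ {f ∈ S | ((2 : ℂ) - a f 2).re < δ},
        {c : ℝ | |((n : ℂ) - a f n).re| ≤ c * ((2 : ℂ) - a f 2).re} := by
      ext c
      simp only [Near, mem_setOf_eq, mem_iInter]
      exact ⟨fun h f hf => h f hf.1 hf.2, fun h f h1 h2 => h f ⟨h1, h2⟩⟩
    rw [this]
    exact isClosed_biInter fun f _ =>
      isClosed_le continuous_const (continuous_id.mul continuous_const)
  exact ⟨hclosed.csInf_mem ⟨_, adm_near (upper hn)⟩ hbdd, fun c hc => csInf_le hbdd hc⟩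

theorem adm_least {n : ℕ} (hn : 2 ≤ n) : IsLeast (Admissible n) (cStar n) := by
  have hbdd : BddBelow (Admissible n) := ⟨0, fun c hc => near_nonneg one_pos (adm_near hc)⟩
  have hclosed : IsClosed (Admissible n) := by
    have : Admissible n = ⋂ f ∈ S, {c : ℝ | |((n : ℂ) - a f n).re| ≤ c * ((2 : ℂ) - a f 2).re} := by
      ext c; simp [Admissible]
    rw [this]
    exact isClosed_biInter fun f _ =>
      isClosed_le continuous_const (continuous_id.mul continuous_const)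
  exact ⟨hclosed.csInf_mem ⟨_, upper hn⟩ hbdd, fun c hc => csInf_le hbdd hc⟩

theorem bounds {n : ℕ} (hn : 2 ≤ n) {x : ℝ}
    (h1 : 1 / 4 * (n : ℝ) ^ 3 * Real.log n - 3 * (n : ℝ) ^ 3 * √(Real.log n) ≤ x)
    (h2 : x ≤ 1 / 4 * (n : ℝ) ^ 3 * Real.log n + 5 * 10 ^ 15 * (n : ℝ) ^ 3 * √(Real.log n)) :
    |x - 1 / 4 * (n : ℝ) ^ 3 * Real.log n| ≤ 5 * 10 ^ 15 * (n : ℝ) ^ 3 * √(Real.log n) := by
  have h3 : 0 ≤ (n : ℝ) ^ 3 * √(Real.log n) := by positivity
  rw [abs_le]
  constructor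
  · linarith
  · linarith

theorem result :
    (∀ n : ℕ, 2 ≤ n → IsLeast (Admissible n) (cStar n) ∧
      |cStar n - 1 / 4 * (n : ℝ) ^ 3 * Real.log n| ≤ 5 * 10 ^ 15 * (n : ℝ) ^ 3 * √(Real.log n)) ∧
    Tendsto (fun n : ℕ => cStar n / ((n : ℝ) ^ 3 * Real.log n)) atTop (𝓝 (1 / 4)) ∧
    (∀ n : ℕ, 2 ≤ n → ∀ δ : ℝ, 0 < δ → IsLeast (Near n δ) (cNear n δ) ∧
      |cNear n δ - 1 / 4 * (n : ℝ) ^ 3 * Real.log n| ≤ 5 * 10 ^ 15 * (n : ℝ) ^ 3 * √(Real.log n)) := by
  have hA : ∀ n : ℕ, 2 ≤ n → IsLeast (Admissible n) (cStar n) ∧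
      |cStar n - 1 / 4 * (n : ℝ) ^ 3 * Real.log n| ≤ 5 * 10 ^ 15 * (n : ℝ) ^ 3 * √(Real.log n) := by
    intro n hn
    have h := adm_least hn
    exact ⟨h, bounds hn (near_lower hn one_pos (adm_near h.1)) (h.2 (upper hn))⟩
  refine ⟨hA, ?_, ?_⟩
  · have hlog : Tendsto (fun n : ℕ => √(Real.log n)) atTop atTop :=
      Real.tendsto_sqrt_atTop.comp (Real.tendsto_log_atTop.comp tendsto_natCast_atTop_atTop)
    have h0 : Tendsto (fun n : ℕ => 5 * 10 ^ 15 * (√(Real.log n))⁻¹) atTop (𝓝 (5 * 10 ^ 15 * 0)) :=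
      (tendsto_inv_atTop_zero.comp hlog).const_mul _
    rw [mul_zero] at h0
    rw [tendsto_iff_norm_sub_tendsto_zero]
    refine squeeze_zero' (Eventually.of_forall fun n => norm_nonneg _) ?_ h0
    filter_upwards [eventually_ge_atTop 2] with n hn
    have hn2 : (2 : ℝ) ≤ n := by exact_mod_cast hn
    have hl : 0 < Real.log n := Real.log_pos (by linarith)
    have h1 := (hA n hn).2
    have hs : 0 < √(Real.log n) := Real.sqrt_pos.2 hl
    have hs2 : √(Real.log n) * √(Real.log n) = Real.log n := Real.mul_self_sqrt hl.le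
    have hpos : 0 < (n : ℝ) ^ 3 * Real.log n := by positivity
    have e : cStar n / ((n : ℝ) ^ 3 * Real.log n) - 1 / 4 =
        (cStar n - 1 / 4 * (n : ℝ) ^ 3 * Real.log n) / ((n : ℝ) ^ 3 * Real.log n) := by
      field_simp
    rw [e, Real.norm_eq_abs, abs_div, abs_of_pos hpos, div_le_iff₀ hpos]
    refine h1.trans (le_of_eq ?_)
    have e2 : (√(Real.log n))⁻¹ * Real.log n = √(Real.log n) := by
      nth_rewrite 2 [← hs2]
      rw [← mul_assoc, inv_mul_cancel₀ hs.ne', one_mul]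
    calc 5 * 10 ^ 15 * (n : ℝ) ^ 3 * √(Real.log n)
        = 5 * 10 ^ 15 * (n : ℝ) ^ 3 * ((√(Real.log n))⁻¹ * Real.log n) := by rw [e2]
      _ = _ := by ring
  · intro n hn δ hδ
    have h := near_least hn hδ
    exact ⟨h, bounds hn (near_lower hn hδ h.1) (h.2 (adm_near (upper hn)))⟩

end Pool.Agent.Results.MP_7d58db_an.SharpAsymptotics
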